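import Pool.Agent.W719.AX.Stp
import Pool.Agent.W719.AR.Fin

/-!
# Asymptotic expansions: the expansion together with the volume
-/

set_option autoImplicit false

namespace Pool.Agent.W351.AX

open Finset Filter Topology
open Pool.Agent.W711.HT hiding XX
open Pool.Agent.W719.AR
open Pool.Agent.W719.AX
open scoped Real

theorem fintx (h1 : S_MAINX) (h2 : S_CCT) (h3 : S_ANG) (h4 : S_GMT) : S_FINTX := by
  intro D hD
  obtain ⟨ρ, τ, κ, c, s, dl, hKD, h⟩ := h1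
  obtain ⟨C, M, hC, hM, h⟩ := h D hD
  obtain ⟨M', hM'⟩ := h2 ρ τ κ c s dl hKD C hC D
  refine ⟨max M M', fun t ht htn => ?_⟩
  have mono : ∀ (t : Tr) (M₁ M₂ : ℝ), M₁ ≤ M₂ → t.Big M₂ D → t.Big M₁ D := by
    intro t M₁ M₂ h12
    induction t with
    | vx a => exact fun h => le_trans h12 h
    | br t c ht hc => exact fun h => ⟨ht h.1, hc h.2.1, h.2.2⟩
  obtain ⟨p, y, hp, hcr, hcp, heq, hy0, hux⟩ := h t (mono t _ _ (le_max_left _ _) ht) htn
  have hnc : 1 ≤ p.nc := by rw [← shape_nc, hp]; exact htn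
  obtain ⟨a1, a2, a3, a4⟩ := hM' p (by rw [hp]; exact mono t _ _ (le_max_right _ _) ht) hnc hcr
    hcp heq
  obtain ⟨b1, b2, b3⟩ := h3 dl p a1 a2 hnc a3
  refine ⟨p.hs dl, Complex.I * p.wt * p.rz ^ 2 / (4 * π) + Complex.I * p.rz + p.vl s, y,
    ⟨⟨p.ang dl, by rw [b1, hp], b2, b3⟩, ?_⟩, a4, hy0, hux⟩
  rintro W ⟨y, hy1, hy2, rfl⟩
  rw [← b3]
  exact h4 dl p a1 a2 hnc a3 y (by rw [hy1, hp]) hy2

end Pool.Agent.W351.AX
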